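import Pool.Agent.Helper58_TOR.Tup
import Pool.Agent.Helper59_TOR.Fla

/-! W_surface (MP_680ca2_al, part (a)): definitions.

* exactness of list chains at one length: `Ex M K p` (lists of length `p` = degree `p - 1`);
* abstract arc systems `ASys` (arcs at gaps, compatibility, classes, intersection form);
* the complexes: independent systems, handles at one gap `NN`, rainbow handle complex `HK`;
* the concrete surface `(F_{2n}, zeta n)`. -/

set_option autoImplicit false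

namespace Pool.Agent.TWS

open Pool.Agent.TOR Pool.Agent.TOR.H58

/-! ### exactness at one length -/

/-- cycles of length `p` of the complex `K` -/
noncomputable def Zc (M : Type) [AddCommGroup M] {V : Type} (K : Set V → Prop) (p : ℕ) :
    AddSubgroup (List V →₀ M) :=
  Sup M (fun l => KL K l ∧ l.length = p) ⊓ (bd : (List V →₀ M) →+ (List V →₀ M)).ker

/-- boundaries of length `p` of the complex `K` -/
noncomputable def Bc (M : Type) [AddCommGroup M] {V : Type} (K : Set V → Prop) (p : ℕ) :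
    AddSubgroup (List V →₀ M) :=
  (Sup M (fun l => KL K l ∧ l.length = p + 1)).map (bd : (List V →₀ M) →+ (List V →₀ M))

/-- exactness at length `p` (degree `p - 1`); `p = 0`: `K` is not empty -/
def Ex (M : Type) [AddCommGroup M] {V : Type} (K : Set V → Prop) (p : ℕ) : Prop :=
  Zc M K p ≤ Bc M K p

/-- closed under subsets -/
def Dn {V : Type} (K : Set V → Prop) : Prop := ∀ s t, s ⊆ t → K t → K s

/-! ### abstract arc systems -/

/-- the arcs `s` at the gap `i` -/
def gp {V : Type} (i : ℕ) (s : Set V) : Set (ℕ × V) := (fun v => (i, v)) '' s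

/-- the arcs of a set of handles -/
def uh {V : Type} (s : Set (V × V)) : Set V := {v | ∃ h ∈ s, v = h.1 ∨ v = h.2}

/-- the arcs, with their gaps, of a set of handles with gaps -/
def uz {V : Type} (s : Set (ℕ × (V × V))) : Set (ℕ × V) :=
  {p | ∃ z ∈ s, p.1 = z.1 ∧ (p.2 = z.2.1 ∨ p.2 = z.2.2)}

/-- all the data and properties of arcs at gaps on a surface of genus `g` used in the
combinatorial part. `C (i,x) (j,y)`: the arc `x` at gap `i` and the arc `y` at gap `j` are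
compatible (disjoint). -/
structure ASys (V E : Type) [AddCommGroup E] [Module ℚ E] (g : ℕ) where
  C : ℕ × V → ℕ × V → Prop
  cl : V → E
  om : E →ₗ[ℚ] E →ₗ[ℚ] ℚ
  refl : ∀ p, C p p
  symm : ∀ p q, C p q → C q p
  same : ∀ i j x y, C (i, x) (i, y) → C (j, x) (j, y)
  fd : FiniteDimensional ℚ E
  dim : Module.finrank ℚ E = 2 * g
  alt : ∀ e, om e e = 0
  ndg : ∀ e, (∀ f, om e f = 0) → e = 0
  /-- compatible arcs at one gap have intersection number 0, 1 or -1 -/
  unit : ∀ i x y, C (i, x) (i, y) →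
    om (cl x) (cl y) = 0 ∨ om (cl x) (cl y) = 1 ∨ om (cl x) (cl y) = -1
  /-- compatible arcs at different gaps are orthogonal -/
  orth : ∀ i j x y, i ≠ j → C (i, x) (j, y) → om (cl x) (cl y) = 0
  /-- flow: systems of arcs at the gap `i` compatible with `κ`, classes outside `N'` -/
  flow : ∀ (M : Type) [AddCommGroup M] (κ : Set (ℕ × V)), κ.Finite →
    (∀ p ∈ κ, ∀ q ∈ κ, C p q) → ∀ (i : ℕ) (N' : Submodule ℚ E),
    (∃ v, (∀ p ∈ insert (i, v) κ, ∀ q ∈ insert (i, v) κ, C p q) ∧ cl v ∉ N') →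
    Acyc M (fun s : Set V => (∀ p ∈ κ ∪ gp i s, ∀ q ∈ κ ∪ gp i s, C p q) ∧ ∀ v ∈ s, cl v ∉ N')
  /-- existence of arcs at a gap `i` free for the independent system `τ` -/
  exist : ∀ (τ κ : Set (ℕ × V)) (i : ℕ), τ.Finite → κ.Finite →
    (∀ p ∈ τ ∪ κ, ∀ q ∈ τ ∪ κ, C p q) → (∀ p ∈ τ, p.1 ≠ i) → (∀ p ∈ κ, p.1 = i) →
    LinearIndepOn ℚ (fun p : ℕ × V => cl p.2) τ → ∀ (N' : Submodule ℚ E),
    (∃ e, (∀ p ∈ τ, om (cl p.2) e = 0) ∧ e ∉ N') →
    ∃ v, (∀ p ∈ insert (i, v) (τ ∪ κ), ∀ q ∈ insert (i, v) (τ ∪ κ), C p q) ∧ cl v ∉ N'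
  /-- fat to thin: two handles at neighbouring gaps contain a handle in `ker f` -/
  fat : ∀ (i : ℕ) (h h' : V × V), om (cl h.1) (cl h.2) = 1 → om (cl h'.1) (cl h'.2) = 1 →
    (∀ p ∈ gp i {h.1, h.2} ∪ gp (i + 1) {h'.1, h'.2},
      ∀ q ∈ gp i {h.1, h.2} ∪ gp (i + 1) {h'.1, h'.2}, C p q) →
    ∀ f : E →ₗ[ℚ] ℚ, ∃ h'' : V × V, C (i, h''.1) (i, h''.2) ∧ om (cl h''.1) (cl h''.2) = 1 ∧
      f (cl h''.1) = 0 ∧ f (cl h''.2) = 0 ∧
      ∀ q : ℕ × V, q.1 ≠ i → q.1 ≠ i + 1 →
        (∀ p ∈ gp i {h.1, h.2} ∪ gp (i + 1) {h'.1, h'.2}, C q p) →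
        C q (i, h''.1) ∧ C q (i, h''.2)

namespace ASys

variable {V E : Type} [AddCommGroup E] [Module ℚ E] {g : ℕ} (S : ASys V E g)

/-- systems of pairwise compatible arcs -/
def Sys (κ : Set (ℕ × V)) : Prop := ∀ p ∈ κ, ∀ q ∈ κ, S.C p q

/-- the span of the classes -/
def spn (τ : Set (ℕ × V)) : Submodule ℚ E := Submodule.span ℚ ((fun p : ℕ × V => S.cl p.2) '' τ)

/-- linearly independent classes -/
def IndG (τ : Set (ℕ × V)) : Prop := LinearIndepOn ℚ (fun p : ℕ × V => S.cl p.2) τ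

/-- linearly independent classes modulo `N` -/
def Ind (N : Submodule ℚ E) (s : Set V) : Prop := LinearIndepOn ℚ (fun v => N.mkQ (S.cl v)) s

/-- handles: two compatible arcs (at one gap) with intersection number 1 -/
def IsH (h : V × V) : Prop := S.C (0, h.1) (0, h.2) ∧ S.om (S.cl h.1) (S.cl h.2) = 1

/-- the complex of independent systems at the gap `i`, compatible with `κ`, modulo `N` -/
def II (κ : Set (ℕ × V)) (i : ℕ) (N : Submodule ℚ E) (s : Set V) : Prop :=
  S.Sys (κ ∪ gp i s) ∧ S.Ind N s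

/-- the complex of handles at the gap `i` compatible with `τ`; all the arcs of the handles together
are independent modulo `span τ` -/
def NN (τ : Set (ℕ × V)) (i : ℕ) (s : Set (V × V)) : Prop :=
  (∀ h ∈ s, S.IsH h) ∧ S.Sys (τ ∪ gp i (uh s)) ∧ S.Ind (S.spn τ) (uh s)

/-- the rainbow handle complex: at most one handle at each gap in `J`, classes in `ker f`,
compatible with each other and with `τ` -/
def HK (f : E →ₗ[ℚ] ℚ) (J : Set ℕ) (τ : Set (ℕ × V)) (s : Set (ℕ × (V × V))) : Prop :=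
  (∀ z ∈ s, z.1 ∈ J ∧ S.IsH z.2 ∧ f (S.cl z.2.1) = 0 ∧ f (S.cl z.2.2) = 0) ∧
  (∀ z ∈ s, ∀ z' ∈ s, z.1 = z'.1 → z = z') ∧ S.Sys (τ ∪ uz s)

end ASys

/-! ### the concrete surface -/

/-- the free group of rank `2n` -/
abbrev Fn (n : ℕ) : Type := FreeGroup (Fin 2 × Fin n)

/-- rational homology -/
abbrev Hn (n : ℕ) : Type := Fin 2 × Fin n → ℚ

/-- abelianisation (exponent sums) -/
noncomputable def hc (n : ℕ) : Fn n →* Multiplicative (Hn n) :=
  FreeGroup.lift fun a => Multiplicative.ofAdd (Pi.single a (1 : ℚ))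

/-- the class of an element -/
noncomputable def cls {n : ℕ} (k : Fn n) : Hn n := Multiplicative.toAdd (hc n k)

/-- the intersection form; sign: `omf (x_j) (y_j⁻¹) = 1` -/
noncomputable def omf (n : ℕ) : Hn n →ₗ[ℚ] Hn n →ₗ[ℚ] ℚ :=
  LinearMap.mk₂ ℚ (fun e f => ∑ j : Fin n, (e (1, j) * f (0, j) - e (0, j) * f (1, j)))
    (by intro a b c; rw [← Finset.sum_add_distrib]; refine Finset.sum_congr rfl fun j _ => ?_
        simp only [Pi.add_apply]; ring)
    (by intro r a b; rw [smul_eq_mul, Finset.mul_sum]; refine Finset.sum_congr rfl fun j _ => ?_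
        simp only [Pi.smul_apply, smul_eq_mul]; ring)
    (by intro a b c; rw [← Finset.sum_add_distrib]; refine Finset.sum_congr rfl fun j _ => ?_
        simp only [Pi.add_apply]; ring)
    (by intro r a b; rw [smul_eq_mul, Finset.mul_sum]; refine Finset.sum_congr rfl fun j _ => ?_
        simp only [Pi.smul_apply, smul_eq_mul]; ring)

/-- compatibility of arcs with gaps -/
def Cc (n : ℕ) (p q : ℕ × Fn n) : Prop := H59.Cmp (H59.sR n) p.1 p.2 q.1 q.2

/-- the arcs -/
abbrev Av (n : ℕ) : Type := {k : Fn n // H59.Arc (H59.sR n) k}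

/-- THE HANDLE COMPLEX of the surface of genus `n`: vertices `(j, k, l)`, `j` a gap in `J`,
`k, l` a handle (`H59.Hnd`) whose classes are orthogonal to `v`; simplices: at most one handle at
each gap, all arcs pairwise compatible. -/
def HC (n : ℕ) (v : Hn n) (J : Set ℕ) (s : Set (ℕ × (Fn n × Fn n))) : Prop :=
  (∀ z ∈ s, z.1 ∈ J ∧ H59.Hnd (H59.sR n) z.2.1 z.2.2 ∧ omf n v (cls z.2.1) = 0 ∧
    omf n v (cls z.2.2) = 0) ∧
  (∀ z ∈ s, ∀ z' ∈ s, z.1 = z'.1 → z = z') ∧ (∀ p ∈ uz s, ∀ q ∈ uz s, Cc n p q)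

end Pool.Agent.TWS
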