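import Pool.Agent.Helper20_TWS.Stmts
import Pool.Agent.Helper36_TOR.Stmts
import Pool.Agent.Helper59_TOR.Cch
import Pool.Agent.Helper96_TOR.Cc2

/-! TWS CC2: change of coordinates, for `tws` and for the action side. -/

set_option autoImplicit false

namespace Pool.Agent.TWS.H20

open Pool.Agent.TOR Pool.Agent.TWS Pool.Agent.TOR.H59

theorem cc2S_all : CC2S := by
  intro α _ _ R Z hZ hall m a b hblk hord
  exact Pool.Agent.TOR96.cc2 R hZ hall a b hblk hord

/-- the change of coordinates of the action side -/
theorem cch_all : SA.CCH := by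
  intro n m j hj k l hh hc
  obtain ⟨h, φ, hφ, h1⟩ := cch cc2S_all n m j hj k l hh hc
  exact ⟨h, ⟨φ, hφ⟩, h1⟩

/-- two handles at neighbouring gaps -/
theorem cc2s : Cc2S := by
  intro n a b ha hb i k l k' l' hk hk' hc
  obtain ⟨hmn, φ, hφ, h1⟩ := cch cc2S_all n 2 ![i, i + 1] (by
      intro x y hxy
      fin_cases x <;> fin_cases y <;> first | exact absurd hxy (by decide) | simp)
    ![k, k'] ![l, l'] (by
      intro x
      fin_cases x
      · exact hk
      · exact hk') (by
      intro x y hxy
      have c1 := hc k (by simp) k' (by simp)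
      have c2 := hc k (by simp) l' (by simp)
      have c3 := hc l (by simp) k' (by simp)
      have c4 := hc l (by simp) l' (by simp)
      fin_cases x <;> fin_cases y
      · exact absurd rfl hxy
      · exact ⟨c1, c2, c3, c4⟩
      · exact ⟨c1.symm, c3.symm, c2.symm, c4.symm⟩
      · exact absurd rfl hxy)
  have e0 : Fin.castLE hmn 0 = a := Fin.ext ha.symm
  have e1 : Fin.castLE hmn 1 = b := Fin.ext hb.symm
  have h2 := h1 0
  have h3 := h1 1
  rw [e0] at h2
  rw [e1] at h3
  exact ⟨φ, hφ, h2.1, h2.2, h3.1, h3.2⟩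

end Pool.Agent.TWS.H20
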