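import Pool.Agent.Helper20_TWS.Stmts
import Pool.Agent.Helper29_TWS.Uoh
import Pool.Agent.Helper29_TOR.Pent2
import Pool.Agent.Helper59_TOR.Cch

/-! TWS EXT: existence of arcs at a gap above all the gaps of an independent system (linear
algebra part; the geometric part is `DuaS`). -/

set_option autoImplicit false

namespace Pool.Agent.TWS.H20

open Pool.Agent.TOR Pool.Agent.TWS Pool.Agent.TOR.H29 Pool.Agent.TOR.H59

/-- dual arcs of a basis of compatible arcs -/
def DuaS : Prop := ∀ (n : ℕ) (ψ : MulAut (Fn n)), 0 < n → CB (sR n) ψ →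
  ∀ (b : Fin 2 × Fin n) (i : ℕ), ∃ t : Fn n, Arc (sR n) t ∧
    (∀ j < i, ∀ c, c ≠ b → Cmp (sR n) i t j (ψ (FreeGroup.of c))) ∧
    (∀ j < i, H29.om (sR n) i j t (ψ (FreeGroup.of b)) ≠ 0)

theorem cls_one (n : ℕ) : cls (1 : Fn n) = 0 := by
  unfold cls; rw [_root_.map_one]; rfl

theorem cls_mul {n : ℕ} (x y : Fn n) : cls (x * y) = cls x + cls y := by
  unfold cls; rw [_root_.map_mul]; rfl

theorem cls_inv {n : ℕ} (x : Fn n) : cls x⁻¹ = - cls x := by
  unfold cls; rw [_root_.map_inv]; rfl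

theorem cls_of {n : ℕ} (a : Fin 2 × Fin n) : cls (FreeGroup.of a : Fn n) = Pi.single a 1 := by
  unfold cls hc; rw [FreeGroup.lift_apply_of, toAdd_ofAdd]

/-- a vector orthogonal to the classes of a basis is zero -/
theorem eq_zero_of_basis {n : ℕ} (ψ : MulAut (Fn n)) (e : Hn n)
    (h : ∀ c, omf n e (cls (ψ (FreeGroup.of c))) = 0) : e = 0 := by
  have h1 : ∀ z : Fn n, omf n e (cls (ψ z)) = 0 := by
    intro z
    induction z using FreeGroup.induction_on with
    | C1 => rw [_root_.map_one, cls_one, _root_.map_zero]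
    | of a => exact h a
    | inv_of a ih => rw [_root_.map_inv, cls_inv, _root_.map_neg, ih, neg_zero]
    | mul x y hx hy => rw [_root_.map_mul, cls_mul, _root_.map_add, hx, hy, add_zero]
  refine (H29.ndg n).2 e fun f => ?_
  have h2 : ∀ a, omf n e (Pi.single a 1) = 0 := by
    intro a
    have := h1 (ψ⁻¹ (FreeGroup.of a))
    rwa [MulAut.apply_inv_self, cls_of] at this
  have h3 : f = ∑ a, f a • (Pi.single a 1 : Hn n) := by
    funext b
    rw [Finset.sum_apply, Finset.sum_eq_single b]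
    · simp
    · intro c _ hc
      rw [Pi.smul_apply, Pi.single_eq_of_ne (Ne.symm hc), smul_zero]
    · intro h; exact absurd (Finset.mem_univ _) h
  rw [h3, map_sum]
  exact Finset.sum_eq_zero fun a _ => by rw [_root_.map_smul, h2, smul_zero]

theorem mem_of_dual {n : ℕ} (ψ : MulAut (Fn n)) (t : Fin 2 × Fin n → Hn n)
    (h0 : ∀ b c, c ≠ b → omf n (t b) (cls (ψ (FreeGroup.of c))) = 0)
    (h1 : ∀ b, omf n (t b) (cls (ψ (FreeGroup.of b))) ≠ 0) (P : Fin 2 × Fin n → Prop)
    (N' : Submodule ℚ (Hn n)) (hN : ∀ b, ¬ P b → t b ∈ N') (e : Hn n)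
    (he : ∀ b, P b → omf n e (cls (ψ (FreeGroup.of b))) = 0) : e ∈ N' := by
  have key : e = ∑ b, (omf n e (cls (ψ (FreeGroup.of b))) /
      omf n (t b) (cls (ψ (FreeGroup.of b)))) • t b := by
    rw [← sub_eq_zero]
    refine eq_zero_of_basis ψ _ fun c => ?_
    rw [_root_.map_sub, LinearMap.sub_apply, map_sum, LinearMap.sum_apply,
      Finset.sum_eq_single c]
    · rw [_root_.map_smul, LinearMap.smul_apply, smul_eq_mul, div_mul_cancel₀ _ (h1 c), sub_self]
    · intro b _ hb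
      rw [_root_.map_smul, LinearMap.smul_apply, h0 b c (Ne.symm hb), smul_zero]
    · intro h; exact absurd (Finset.mem_univ _) h
  rw [key]
  refine Submodule.sum_mem _ fun b _ => ?_
  by_cases hb : P b
  · rw [he b hb, zero_div, zero_smul]; exact Submodule.zero_mem _
  · exact Submodule.smul_mem _ _ (hN b hb)

/-- integral functionals -/
theorem int_fun {n r : ℕ} (e : Fin r → Fn n) (hind : LinearIndependent ℚ fun k => cls (e k))
    (i : Fin r) : ∃ f : Fn n →* Multiplicative ℤ, (∀ j < i, f (e j) = 1) ∧ f (e i) ≠ 1 := by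
  classical
  obtain ⟨φ, hφ1, hφ2⟩ : ∃ φ : Hn n →ₗ[ℚ] ℚ, (∀ j < i, φ (cls (e j)) = 0) ∧
      φ (cls (e i)) ≠ 0 := by
    have h := hind.notMem_span_image (s := {j | j < i}) (x := i) (by simp)
    obtain ⟨φ, h1, h2⟩ := Submodule.exists_le_ker_of_notMem h
    exact ⟨φ, fun j hj => h2 (Submodule.subset_span ⟨j, hj, rfl⟩), h1⟩
  obtain ⟨D, hD, z, hz⟩ : ∃ D : ℚ, D ≠ 0 ∧ ∃ z : Fin 2 × Fin n → ℤ,
      ∀ a, D * φ (Pi.single a 1) = z a := by
    refine ⟨∏ a : Fin 2 × Fin n, ((φ (Pi.single a 1)).den : ℚ), ?_, ?_⟩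
    · exact Finset.prod_ne_zero_iff.mpr fun a _ => by exact_mod_cast (φ (Pi.single a 1)).den_ne_zero
    · have : ∀ a, ∃ z : ℤ, (∏ a : Fin 2 × Fin n, ((φ (Pi.single a 1)).den : ℚ)) *
          φ (Pi.single a 1) = z := by
        intro a
        refine ⟨(∏ b ∈ Finset.univ.erase a, ((φ (Pi.single b 1)).den : ℤ)) *
          (φ (Pi.single a 1)).num, ?_⟩
        rw [← Finset.mul_prod_erase _ _ (Finset.mem_univ a)]
        push_cast
        have h1 := Rat.den_mul_eq_num (φ (Pi.single a 1))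
        rw [mul_comm ((φ (Pi.single a 1)).den : ℚ), mul_assoc, h1]
      choose z hz using this
      exact ⟨z, hz⟩
  have key : ∀ x : Fn n, ((Multiplicative.toAdd
      (FreeGroup.lift (fun a => Multiplicative.ofAdd (z a)) x) : ℤ) : ℚ) = D * φ (cls x) := by
    intro x
    induction x using FreeGroup.induction_on with
    | C1 => rw [_root_.map_one, cls_one, _root_.map_zero, mul_zero]; simp
    | of a => rw [FreeGroup.lift_apply_of, toAdd_ofAdd, cls_of, hz]
    | inv_of a ih =>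
      rw [_root_.map_inv, cls_inv, _root_.map_neg, mul_neg, ← ih, toAdd_inv]; push_cast; rfl
    | mul x y hx hy =>
      rw [_root_.map_mul, cls_mul, _root_.map_add, mul_add, ← hx, ← hy, toAdd_mul]; push_cast; rfl
  refine ⟨FreeGroup.lift (fun a => Multiplicative.ofAdd (z a)), fun j hj => ?_, fun h => ?_⟩
  · have := key (e j)
    rw [hφ1 j hj, mul_zero] at this
    apply Multiplicative.toAdd.injective
    exact_mod_cast this
  · have := key (e i)
    rw [h, toAdd_one, Int.cast_zero] at this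
    exact mul_ne_zero hD hφ2 this.symm

theorem ext_pos (hDua : DuaS) (n : ℕ) (τ : Set (ℕ × Av n)) (i : ℕ) (hi : 0 < i)
    (N' : Submodule ℚ (Hn n)) (hτ : τ.Finite) (hC : ∀ p ∈ τ, ∀ q ∈ τ, Ca n p q)
    (hg : ∀ p ∈ τ, p.1 < i) (hind : LinearIndepOn ℚ (fun p : ℕ × Av n => cla p.2) τ)
    (he : ∃ e, (∀ p ∈ τ, omf n (cla p.2) e = 0) ∧ e ∉ N') :
    ∃ v : Av n, (∀ p ∈ τ, Ca n p (i, v)) ∧ cla v ∉ N' := by
  classical
  obtain ⟨e, he1, he2⟩ := he
  have hn : 0 < n := by
    rcases Nat.eq_zero_or_pos n with rfl | h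
    · exact absurd (by rw [Subsingleton.elim e 0]; exact Submodule.zero_mem _) he2
    · exact h
  -- enumeration
  have := hτ.fintype
  let r := Fintype.card τ
  let E : Fin r ≃ τ := (Fintype.equivFin τ).symm
  let T : Finset (Fn n) := Finset.univ.image fun p : τ => p.1.2.1
  have hT : ∀ x ∈ T, ∀ y ∈ T, Cmp (sR n) 0 x 0 y := by
    intro x hx y hy
    obtain ⟨p, _, rfl⟩ := Finset.mem_image.mp hx
    obtain ⟨q, _, rfl⟩ := Finset.mem_image.mp hy
    exact cmp_zero (hC p.1 p.2 q.1 q.2)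
  have hli : LinearIndependent ℚ fun k : Fin r => cls (E k).1.2.1 := by
    have h1 : LinearIndependent ℚ fun p : τ => cla p.1.2 := hind
    exact h1.comp E E.injective
  obtain ⟨ψ, hψ, _, a, ha, hae⟩ := unc_ind (sS n hn) T hT r (fun k => (E k).1.2.1)
    (fun k => Finset.mem_image_of_mem _ (Finset.mem_univ _)) (fun k => int_fun _ hli k)
  choose t ht1 ht2 ht3 using fun b => hDua n ψ hn hψ b i
  have key : ∃ b, (∀ k, a k ≠ b) ∧ cls (t b) ∉ N' := by
    by_contra hcon
    push Not at hcon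
    refine he2 (mem_of_dual ψ (fun b => cls (t b)) ?_ ?_ (fun b => ∃ k, a k = b) N'
      (fun b hb => hcon b (by simpa using hb)) e ?_)
    · intro b c hc
      rw [H29.omf_cls, sf_cmp hi.ne' (ht2 b 0 hi c hc)]
      simp
    · intro b
      have := ht3 b 0 hi
      rw [om_std hi.ne'] at this
      rw [H29.omf_cls, neg_ne_zero]
      exact_mod_cast this
    · rintro b ⟨k, rfl⟩
      rw [hae k]
      have h1 := he1 (E k).1 (E k).2
      have h2 := (H29.ndg n).1 (cla (E k).1.2 + e)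
      rw [_root_.map_add, _root_.map_add, LinearMap.add_apply, LinearMap.add_apply,
        (H29.ndg n).1, (H29.ndg n).1, h1, zero_add, add_zero, add_zero] at h2
      exact h2
  obtain ⟨b, hb, hbN⟩ := key
  refine ⟨⟨t b, ht1 b⟩, fun p hp => ?_, hbN⟩
  obtain ⟨k, hk⟩ : ∃ k, (E k).1 = p := ⟨E.symm ⟨p, hp⟩, by rw [Equiv.apply_symm_apply]⟩
  have h1 := ht2 b p.1 (hg p hp) (a k) (hb k)
  rw [hae k, hk] at h1
  exact h1.symm

theorem ext (hDua : DuaS) : ExtS := by
  intro n τ i N' hτ hC hg hind he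
  rcases Nat.eq_zero_or_pos i with rfl | hi
  · have h0 : τ = ∅ := by
      ext p
      simp only [Set.mem_empty_iff_false, iff_false]
      intro hp
      exact absurd (hg p hp) (Nat.not_lt_zero _)
    subst h0
    obtain ⟨v, _, hv⟩ := ext_pos hDua n ∅ 1 one_pos N' hτ hC (fun p hp => absurd hp
      (Set.notMem_empty p)) hind he
    exact ⟨v, fun p hp => absurd hp (Set.notMem_empty p), hv⟩
  · exact ext_pos hDua n τ i hi N' hτ hC hg hind he

end Pool.Agent.TWS.H20
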