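import Pool.Agent.Helper20_TWS.Stmts
import Pool.Agent.Helper29_TWS.Uoh
import Pool.Agent.Helper36_TOR.Stmts

/-! TWS FIN: the final form of W_surface for the action side (`TR` of helper36). -/

set_option autoImplicit false

namespace Pool.Agent.TWS

open Pool.Agent.TOR Pool.Agent.TOR.H58 Pool.Agent.TOR.H59 Pool.Agent.TOR.H29 Pool.Agent.TOR.SA

/-- rational vector -/
def qv {n : ℕ} (v : Hh n) : Hn n := fun a => (v a : ℚ)

theorem omf_qv {n : ℕ} (v : Hh n) (k : FF n) : omf n (qv v) (cls k) = 0 ↔ sf (ev k) v = 0 := by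
  obtain ⟨x, rfl⟩ := ev_surj v
  have h : qv (ev x) = cls x := (H29.cls_eq x).symm
  rw [h, H29.omf_cls, sf_swap (ev k) (ev x), neg_eq_zero, neg_eq_zero, Int.cast_eq_zero]

theorem hc_iff (n : ℕ) (J : Set ℕ) (v : Hh n) (s : Set (ℕ × (Fn n × Fn n))) :
    HC n (qv v) J s ↔ SA.HC n v J s := by
  unfold HC SA.HC
  simp only [omf_qv]
  rfl

/-- W_surface, in the form used by the action side -/
theorem tr_of (hWsf : WsfS) (hTup : TupS) : SA.TR := by
  intro q
  refine ⟨6 * (q + 1) ^ 2 + 10 * (q + 1), (Ev q : Set ℕ), fun n hn v => ?_⟩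
  have hex : ∀ (M : Type) [AddCommGroup M], ∀ p ≤ q, Ex M (SA.HC n v (Ev q : Set ℕ)) p := by
    intro M _ p hp
    have := hWsf q n hn (qv v) M p hp
    rwa [show HC n (qv v) (Ev q : Set ℕ) = SA.HC n v (Ev q : Set ℕ) from
      funext fun s => propext (hc_iff n _ v s)] at this
  have h0 : SA.HC n v (Ev q : Set ℕ) ∅ :=
    ⟨fun z hz => absurd hz (Set.notMem_empty z), fun z hz => absurd hz (Set.notMem_empty z), by
      rintro p ⟨z, hz, _⟩; exact absurd hz (Set.notMem_empty z)⟩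
  refine ⟨(hTup _ ℤ _ SA.HC.mono q h0 (hex ℤ)).1 inferInstance, fun hq A _ c hc => ?_,
    fun p hp A _ c hc => ?_⟩
  · exact (hTup _ A _ SA.HC.mono q h0 (hex A)).2.1 hq c hc
  · exact (hTup _ A _ SA.HC.mono q h0 (hex A)).2.2 p hp c hc

end Pool.Agent.TWS
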