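import Pool.Agent.Helper20_TWS.Defs

/-! W_surface (MP_680ca2_al, part (a)): the statements of the modules (table `tws`).
Module XXX proves `XxxS`; the dependencies are hypotheses (column `uses`, in that order). -/

set_option autoImplicit false

namespace Pool.Agent.TWS

open Pool.Agent.TOR Pool.Agent.TOR.H58

/-! ### chain level -/

/-- BAS: an acyclic complex is exact at every length; cones are exact. -/
def BasS : Prop := ∀ (V M : Type) [AddCommGroup M] (K : Set V → Prop),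
  (Acyc M K → ∀ p, Ex M K p) ∧
  (Dn K → ∀ e : V, (∀ s, K s → K (insert e s)) → ∀ p, Ex M K p)

/-- ATT: attach the cones over the new vertices `P` (at most one in each simplex). -/
def AttS : Prop := ∀ (V M : Type) [AddCommGroup M] (K : Set V → Prop) (P : Set V) (m : ℕ),
  Dn K → (∀ s, K s → ∀ a ∈ s, ∀ b ∈ s, a ∈ P → b ∈ P → a = b) →
  (∀ h ∈ P, K {h} → ∀ p < m, Ex M (fun s => (∀ a ∈ s, a ∉ P) ∧ K (insert h s)) p) →
  (∀ p ≤ m, Zc M (fun s => (∀ a ∈ s, a ∉ P) ∧ K s) p ≤ Bc M K p ⊔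
    ⨆ h : {h : V // h ∈ P ∧ K {h}}, Zc M (fun s => (∀ a ∈ s, a ∉ P) ∧ K (insert h.1 s)) p) →
  ∀ p ≤ m, Ex M K p

/-- BIC: bicomplex zigzag. Rows `D s` exact, columns over at least two vertices exact: every cycle
of the column `∅` is a sum of cycles of the columns over one vertex. -/
def BicS : Prop := ∀ (V W M : Type) [AddCommGroup M] (D : Set V → Set W → Prop) (p : ℕ),
  (∀ s s' t t', s ⊆ s' → t ⊆ t' → D s' t' → D s t) →
  (∀ l : List V, l.length ≤ p → D {a | a ∈ l} ∅ → Ex M (D {a | a ∈ l}) (p - l.length)) →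
  (∀ t : List W, 2 ≤ t.length → t.length ≤ p + 1 → D ∅ {a | a ∈ t} →
    Ex M (fun s => D s {a | a ∈ t}) (p + 1 - t.length)) →
  Zc M (fun s => D s ∅) p ≤ ⨆ w : {w : W // D ∅ {w}}, Zc M (fun s => D s {w.1}) p

/-- DET: detach. `K'` is `K` with pieces `S g` (`g` a type) glued on along `K ∩ S g`. -/
def DetS : Prop := ∀ (V M G : Type) [AddCommGroup M] (K K' : Set V → Prop)
  (S : G → Set V → Prop) (p : ℕ), Dn K → Dn K' → (∀ g, Dn (S g)) → (∀ s, K s → K' s) →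
  (∀ s, K' s → ¬ K s → ∃ g, S g s) →
  (∀ s s' g g', s ⊆ s' → K' s' → ¬ K s → S g s → S g' s' → g = g') →
  (∀ g, Ex M (fun s => K s ∧ S g s) p) → Ex M K' p → Ex M K p

/-- JSP: join with the boundary of the simplex `γ`. -/
def JspS : Prop := ∀ (V M : Type) [AddCommGroup M] (γ : Finset V) (B : Set V → Prop) (m : ℕ),
  Dn B → γ.Nonempty → (∀ p < m, Ex M (fun s => (∀ a ∈ s, a ∉ γ) ∧ B s) p) →
  ∀ p, p + 1 < γ.card + m →
    Ex M (fun s => ¬ ((γ : Set V) ⊆ s) ∧ B {a | a ∈ s ∧ a ∉ γ}) p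

/-- TRA: transport along an injective map of vertices onto the vertices of `K'`. -/
def TraS : Prop := ∀ (V W M : Type) [AddCommGroup M] (f : V → W) (K : Set V → Prop)
  (K' : Set W → Prop) (p : ℕ), Function.Injective f → Dn K' →
  (∀ s, K' (f '' s) ↔ K s) → (∀ w, K' {w} → ∃ v, f v = w) → (Ex M K' p ↔ Ex M K p)

/-- TUP: exactness of the tuples (form of `van_of_action`). -/
def TupS : Prop := ∀ (V M : Type) [AddCommGroup M] (K : Set V → Prop) (hK : Dn K) (m : ℕ),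
  K ∅ → (∀ p ≤ m, Ex M K p) →
  (Nontrivial M → Nonempty (OX K 0)) ∧
  (0 < m → ∀ c : OX K 0 →₀ M, auM (OX K 0) M c = 0 → ∃ b, bdM (OX K) (ofc hK) M 0 b = c) ∧
  (∀ p, p + 1 < m → ∀ c : OX K (p + 1) →₀ M, bdM (OX K) (ofc hK) M p c = 0 →
    ∃ b, bdM (OX K) (ofc hK) M (p + 1) b = c)

/-! ### abstract arc systems -/

/-- M2: independent systems at one gap, compatible with `κ`, modulo `N`. -/
def M2S : Prop := ∀ (V E M : Type) [AddCommGroup E] [Module ℚ E] [AddCommGroup M] (g : ℕ)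
  (S : ASys V E g) (κ : Set (ℕ × V)) (i : ℕ) (L : Submodule ℚ E), κ.Finite → S.Sys κ →
  (∀ ρ : Set V, ρ.Finite → S.Sys (κ ∪ gp i ρ) → ∀ N' : Submodule ℚ E, ¬ L ≤ N' →
    ∃ v, S.Sys (insert (i, v) (κ ∪ gp i ρ)) ∧ S.cl v ∉ N') →
  ∀ (N : Submodule ℚ E) (p : ℕ), p + 1 ≤ Module.finrank ℚ (L.map N.mkQ) →
    Ex M (S.II κ i N) p

/-- NNA: the complex of handles at one gap free for `τ`. -/
def NnaS : Prop := ∀ (V E M : Type) [AddCommGroup E] [Module ℚ E] [AddCommGroup M] (g : ℕ)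
  (S : ASys V E g) (τ : Set (ℕ × V)) (i m : ℕ), τ.Finite → S.Sys τ → S.IndG τ →
  (∀ p ∈ τ, p.1 ≠ i) → 2 * τ.ncard + m + 1 ≤ g → ∀ p ≤ m, Ex M (S.NN τ i) p

/-- SUR: cycles of the rainbow complex are sums of cycles compatible with one unrestricted handle
at the gap `i`. -/
def SurS : Prop := ∀ (V E M : Type) [AddCommGroup E] [Module ℚ E] [AddCommGroup M] (g : ℕ)
  (S : ASys V E g) (f : E →ₗ[ℚ] ℚ) (J : Set ℕ) (τ : Set (ℕ × V)) (i p : ℕ),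
  τ.Finite → S.Sys τ → S.IndG τ → i ∉ J → (∀ q ∈ τ, q.1 ≠ i ∧ q.1 ∉ J) →
  2 * τ.ncard + 4 * p + 1 ≤ g →
  (∀ κ : List (V × V), 2 ≤ κ.length → κ.length ≤ p + 1 → S.NN τ i {h | h ∈ κ} →
    Ex M (S.HK f J (τ ∪ gp i (uh {h | h ∈ κ}))) (p + 1 - κ.length)) →
  Zc M (S.HK f J τ) p ≤
    ⨆ h : {h : V × V // S.IsH h ∧ S.Sys (τ ∪ gp i {h.1, h.2})},
      Zc M (S.HK f J (τ ∪ gp i {h.1.1, h.1.2})) p

/-- THR: Theorem R, the rainbow handle complex in `ker f`. -/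
def ThrS : Prop := ∀ (V E M : Type) [AddCommGroup E] [Module ℚ E] [AddCommGroup M] (g : ℕ)
  (S : ASys V E g) (f : E →ₗ[ℚ] ℚ) (J : Finset ℕ) (τ : Set (ℕ × V)),
  (∀ j ∈ J, j + 1 ∉ J) → τ.Finite → S.Sys τ → S.IndG τ →
  (∀ q ∈ τ, ∀ j ∈ J, q.1 ≠ j ∧ q.1 ≠ j + 1) →
  2 * τ.ncard + 6 * J.card ^ 2 + 10 * J.card ≤ g →
  ∀ p < J.card, Ex M (S.HK f (J : Set ℕ) τ) p

/-! ### the concrete surface -/

/-- compatibility of the arcs -/
def Ca (n : ℕ) (p q : ℕ × Av n) : Prop := H59.Cmp (H59.sR n) p.1 p.2.1 q.1 q.2.1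

/-- class of an arc -/
noncomputable def cla {n : ℕ} (v : Av n) : Hn n := cls v.1

/-- FLO: the flow (`H59.fla`) in the form of `ASys.flow`. -/
def FloS : Prop := ∀ (n : ℕ) (M : Type) [AddCommGroup M] (κ : Set (ℕ × Av n)), κ.Finite →
    (∀ p ∈ κ, ∀ q ∈ κ, Ca n p q) → ∀ (i : ℕ) (N' : Submodule ℚ (Hn n)),
    (∃ v, (∀ p ∈ insert (i, v) κ, ∀ q ∈ insert (i, v) κ, Ca n p q) ∧ cla v ∉ N') →
    Acyc M (fun s : Set (Av n) => (∀ p ∈ κ ∪ gp i s, ∀ q ∈ κ ∪ gp i s, Ca n p q) ∧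
      ∀ v ∈ s, cla v ∉ N')

/-- NDG: the intersection form is alternating and nondegenerate. -/
def NdgS : Prop := ∀ n : ℕ, (∀ e, omf n e e = 0) ∧ (∀ e, (∀ f, omf n e f = 0) → e = 0)

/-- UNI (intersection form by counting): arcs compatible at one gap. -/
def UniS : Prop := ∀ (n i : ℕ) (x y : Av n), Ca n (i, x) (i, y) →
  omf n (cla x) (cla y) = 0 ∨ omf n (cla x) (cla y) = 1 ∨ omf n (cla x) (cla y) = -1

/-- ORT (intersection form by counting): compatible arcs at different gaps are orthogonal. -/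
def OrtS : Prop := ∀ (n i j : ℕ) (x y : Av n), i ≠ j → Ca n (i, x) (j, y) →
  omf n (cla x) (cla y) = 0

/-- HND: handles are the pairs with intersection number 1. -/
def HndS : Prop := ∀ (n : ℕ),
  (∀ x y : Av n, Ca n (0, x) (0, y) → omf n (cla x) (cla y) = 1 →
    H59.Hnd (H59.sR n) x.1 (y.1)⁻¹) ∧
  (∀ k l : Fn n, H59.Hnd (H59.sR n) k l → omf n (cls k) (cls l⁻¹) = 1)

/-- GAP: compatibility depends only on the order of the gaps. -/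
def GapS : Prop := ∀ (n : ℕ) (i j i' j' : ℕ) (k m : Fn n), i < j → i' < j' →
  (H59.Cmp (H59.sR n) i k j m ↔ H59.Cmp (H59.sR n) i' k j' m)

/-- ROT: rotation of the gaps around the boundary circle. -/
def RotS : Prop := ∀ (n : ℕ), 0 < n → ∀ k m : Fn n,
  (H59.Cmp (H59.sR n) 0 k 1 m ↔
    H59.Cmp (H59.sR n) 1 k 0 (H59.zeta n * m * (H59.zeta n)⁻¹))

/-- SRG: uncrossing along arcs at the same gap (surgery `H59.Sg`). -/
def SrgS : Prop := ∀ (n : ℕ) (τ κ : Set (ℕ × Av n)) (i : ℕ) (N' : Submodule ℚ (Hn n)),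
  τ.Finite → κ.Finite → (∀ p ∈ τ ∪ κ, ∀ q ∈ τ ∪ κ, Ca n p q) → (∀ p ∈ κ, p.1 = i) →
  (∃ v : Av n, (∀ p ∈ τ, Ca n p (i, v)) ∧ cla v ∉ N') →
  ∃ v : Av n, (∀ p ∈ τ ∪ κ, Ca n p (i, v)) ∧ cla v ∉ N'

/-- EXT: existence of arcs at a gap above all the gaps of an independent system. -/
def ExtS : Prop := ∀ (n : ℕ) (τ : Set (ℕ × Av n)) (i : ℕ) (N' : Submodule ℚ (Hn n)),
  τ.Finite → (∀ p ∈ τ, ∀ q ∈ τ, Ca n p q) → (∀ p ∈ τ, p.1 < i) →
  LinearIndepOn ℚ (fun p : ℕ × Av n => cla p.2) τ →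
  (∃ e, (∀ p ∈ τ, omf n (cla p.2) e = 0) ∧ e ∉ N') →
  ∃ v : Av n, (∀ p ∈ τ, Ca n p (i, v)) ∧ cla v ∉ N'

/-- EXI: existence of arcs at a free gap (`ASys.exist`). -/
def ExiS : Prop := ∀ (n : ℕ) (τ κ : Set (ℕ × Av n)) (i : ℕ), τ.Finite → κ.Finite →
    (∀ p ∈ τ ∪ κ, ∀ q ∈ τ ∪ κ, Ca n p q) → (∀ p ∈ τ, p.1 ≠ i) → (∀ p ∈ κ, p.1 = i) →
    LinearIndepOn ℚ (fun p : ℕ × Av n => cla p.2) τ → ∀ (N' : Submodule ℚ (Hn n)),
    (∃ e, (∀ p ∈ τ, omf n (cla p.2) e = 0) ∧ e ∉ N') →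
    ∃ v, (∀ p ∈ insert (i, v) (τ ∪ κ), ∀ q ∈ insert (i, v) (τ ∪ κ), Ca n p q) ∧ cla v ∉ N'

/-- the letters of the handle with number `a` -/
def xl {n : ℕ} (a : Fin n) : Fn n := FreeGroup.of ((0 : Fin 2), a)
def yl {n : ℕ} (a : Fin n) : Fn n := FreeGroup.of ((1 : Fin 2), a)

/-- EUC: explicit automorphisms of the first two handles and Euclid's algorithm. -/
def EucS : Prop := ∀ (n : ℕ) (a b : Fin n), (a : ℕ) = 0 → (b : ℕ) = 1 →
  ∀ f : Hn n →ₗ[ℚ] ℚ, ∃ ψ : MulAut (Fn n), ψ (H59.zeta n) = H59.zeta n ∧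
    (∀ u ∈ Subgroup.closure {xl a, yl a, xl b, yl b},
      ψ u ∈ Subgroup.closure {xl a, yl a, xl b, yl b}) ∧
    f (cls (ψ (xl a))) = 0 ∧ f (cls (ψ (yl a))) = 0

/-- CC2: change of coordinates for two handles at neighbouring gaps (helper59). -/
def Cc2S : Prop := ∀ (n : ℕ) (a b : Fin n), (a : ℕ) = 0 → (b : ℕ) = 1 →
  ∀ (i : ℕ) (k l k' l' : Fn n), H59.Hnd (H59.sR n) k l → H59.Hnd (H59.sR n) k' l' →
  (∀ m ∈ ({k, l} : Set (Fn n)), ∀ m' ∈ ({k', l'} : Set (Fn n)),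
    H59.Cmp (H59.sR n) i m (i + 1) m') →
  ∃ φ : MulAut (Fn n), φ (H59.zeta n) = H59.zeta n ∧ φ (xl a) = k ∧ φ (yl a) = l ∧
    φ (xl b) = k' ∧ φ (yl b) = l'

/-- CLO: an arc at another gap does not separate the lifts of the gap `i` along the subgroup
generated by the arcs compatible with it. -/
def CloS : Prop := ∀ (n i j : ℕ) (m : Fn n) (A A' : Set (Fn n)), j ≠ i → j ≠ i + 1 →
  (∀ k ∈ A, H59.Cmp (H59.sR n) j m i k) → (∀ k ∈ A', H59.Cmp (H59.sR n) j m (i + 1) k) →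
  ∀ u ∈ Subgroup.closure (A ∪ A'), H59.Cmp (H59.sR n) j m i u

/-- FAT: fat to thin (`ASys.fat`). -/
def FatS : Prop := ∀ (n : ℕ), 2 ≤ n → ∀ (i : ℕ) (h h' : Av n × Av n),
    omf n (cla h.1) (cla h.2) = 1 → omf n (cla h'.1) (cla h'.2) = 1 →
    (∀ p ∈ gp i {h.1, h.2} ∪ gp (i + 1) {h'.1, h'.2},
      ∀ q ∈ gp i {h.1, h.2} ∪ gp (i + 1) {h'.1, h'.2}, Ca n p q) →
    ∀ f : Hn n →ₗ[ℚ] ℚ, ∃ h'' : Av n × Av n, Ca n (i, h''.1) (i, h''.2) ∧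
      omf n (cla h''.1) (cla h''.2) = 1 ∧ f (cla h''.1) = 0 ∧ f (cla h''.2) = 0 ∧
      ∀ q : ℕ × Av n, q.1 ≠ i → q.1 ≠ i + 1 →
        (∀ p ∈ gp i {h.1, h.2} ∪ gp (i + 1) {h'.1, h'.2}, Ca n q p) →
        Ca n q (i, h''.1) ∧ Ca n q (i, h''.2)

/-- ASY: the concrete arc system. -/
def AsyS : Prop := ∀ n : ℕ, 2 ≤ n → ∃ S : ASys (Av n) (Hn n) n,
  S.C = Ca n ∧ S.cl = cla ∧ S.om = omf n

/-- the gaps `0, 2, .., 2m` -/
def Ev (m : ℕ) : Finset ℕ := (Finset.range (m + 1)).image (fun a => 2 * a)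

/-- WSF: THE FINAL THEOREM (W_surface). The handle complex orthogonal to `v` at the gaps
`0, 2, .., 2m` is exact at all lengths `≤ m` (degrees `≤ m - 1`). -/
def WsfS : Prop := ∀ (m n : ℕ), 6 * (m + 1) ^ 2 + 10 * (m + 1) ≤ n → ∀ (v : Hn n) (M : Type)
  [AddCommGroup M], ∀ p ≤ m, Ex M (HC n v (Ev m : Set ℕ)) p

end Pool.Agent.TWS
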