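import Pool.Agent.Helper20_TWS.Nna
import Pool.Agent.Helper20_TWS.Fin
import Pool.Agent.Helper20_TWS.Ext
import Pool.Agent.Helper20_TWS.Cc2
import Pool.Agent.Helper31_TWS.Att
import Pool.Agent.Helper58_TWS.M2
import Pool.Agent.Helper15_TWS.Thr
import Pool.Agent.Helper11_TWS.Tra
import Pool.Agent.Helper99_TWS.Tup
import Pool.Agent.Helper51_TOR.Asy
import Pool.Agent.Helper79_TWS.Flo
import Pool.Agent.Helper90_TWS.Exi
import Pool.Agent.Helper90_TWS.Clo
import Pool.Agent.Helper19_TWS.Gap
import Pool.Agent.Helper40_TOR.Rot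
import Pool.Agent.Helper57_TWS.Euc
import Pool.Agent.Helper59_TOR.Dua2
import Pool.Agent.Helper59_TOR.Cchf
import Pool.Agent.Helper75_TWS.Fat

/-! W_surface: assembly of the modules of table `tws`. -/

set_option autoImplicit false

namespace Pool.Agent.TWS.H20

open Pool.Agent.TOR Pool.Agent.TWS

theorem nna_all : NnaS := nna H31.bas bic H58.m2s

theorem thr_all : ThrS := H15.thr H31.att (H15.sur bic nna_all)

theorem exi_all : ExiS := H90.exi H19.gap H40.rot H79.srg (ext Pool.Agent.TOR.H59.dua)

theorem asy_all (hFat : FatS) : AsyS :=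
  H51.asy H79.flo H29.ndg H29.uni H29.ort exi_all hFat

theorem wsf_all (hFat : FatS) : WsfS := H51.wsf thr_all H11.tra H29.hnd (asy_all hFat)

/-- Theorem R in the form of the action side -/
theorem tr_all (hFat : FatS) : SA.TR := tr_of (wsf_all hFat) H99.tup

theorem fat_all : FatS := H75.fat H29.hnd H57.euc Pool.Agent.TOR.H59.cc2_tws H90.clo

/-- W_surface, no hypotheses -/
theorem wsf_final : WsfS := wsf_all fat_all

/-- Theorem R in the form of the action side, no hypotheses -/
theorem tr_final : SA.TR := tr_all fat_all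

end Pool.Agent.TWS.H20
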