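import Pool.Agent.Helper20_TWS.Stmts

/-! TWS BIC: bicomplex zigzag. -/

set_option autoImplicit false

namespace Pool.Agent.TWS

open Finsupp Pool.Agent.TOR.H58

/-- change of coefficients -/
noncomputable def cf {V : Type} {M N : Type} [AddCommGroup M] [AddCommGroup N] (f : M →+ N) :
    (List V →₀ M) →+ (List V →₀ N) := Finsupp.mapRange.addMonoidHom f

section cf
variable {V M N P : Type} [AddCommGroup M] [AddCommGroup N] [AddCommGroup P]

theorem cf_apply (f : M →+ N) (c : List V →₀ M) (l : List V) : cf f c l = f (c l) := by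
  simp [cf]

theorem cf_single (f : M →+ N) (l : List V) (m : M) :
    cf f (single l m) = single l (f m) := by
  simp [cf]

theorem cf_cns (f : M →+ N) (v : V) (c : List V →₀ M) : cf f (cns v c) = cns v (cf f c) := by
  induction c using Finsupp.induction_linear with
  | zero => simp
  | add a b ha hb => rw [map_add, map_add, ha, hb, map_add, map_add]
  | single l m => rw [cns_single, cf_single, cf_single, cns_single]

theorem cf_bd (f : M →+ N) (c : List V →₀ M) : cf f (bd c) = bd (cf f c) := by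
  induction c using Finsupp.induction_linear with
  | zero => simp
  | add a b ha hb => rw [map_add, map_add, ha, hb, map_add, map_add]
  | single l m =>
    rw [cf_single, bd_single, bd_single]
    induction l with
    | nil => simp [bd1_nil]
    | cons v l ih => rw [bd1_cons, bd1_cons, map_sub, cf_single, cf_cns, ih]

theorem cf_cf (g : N →+ P) (f : M →+ N) (c : List V →₀ M) : cf g (cf f c) = cf (g.comp f) c := by
  ext l
  rw [cf_apply, cf_apply, cf_apply, AddMonoidHom.comp_apply]

end cf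

section bic
variable {V W M : Type} [AddCommGroup M] (D : Set V → Set W → Prop)

/-- bichains of bilength `(a, b)` -/
def Bs (M : Type) [AddCommGroup M] (a b : ℕ) : AddSubgroup (List V →₀ (List W →₀ M)) where
  carrier := {y | ∀ l t, (y l) t ≠ 0 → D {x | x ∈ l} {x | x ∈ t} ∧ l.length = a ∧ t.length = b}
  zero_mem' := fun l t h => absurd rfl h
  add_mem' := by
    intro x y hx hy l t h
    by_cases h1 : (x l) t = 0
    · refine hy l t fun h2 => h ?_
      rw [Finsupp.add_apply, Finsupp.add_apply, h1, h2, add_zero]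
    · exact hx l t h1
  neg_mem' := by
    intro x hx l t h
    refine hx l t fun h2 => h ?_
    rw [Finsupp.neg_apply, Finsupp.neg_apply, h2, neg_zero]

/-- vertical boundary -/
noncomputable def dv : (List V →₀ (List W →₀ M)) →+ (List V →₀ (List W →₀ M)) := cf bd

/-- the column over `t` -/
noncomputable def cl' (t : List W) : (List V →₀ (List W →₀ M)) →+ (List V →₀ M) :=
  cf (Finsupp.applyAddHom t)

theorem cl'_apply (t : List W) (y : List V →₀ (List W →₀ M)) (l : List V) :
    cl' t y l = (y l) t := by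
  rw [cl', cf_apply]; rfl

theorem dv_bd (y : List V →₀ (List W →₀ M)) : dv (bd y) = bd (dv y) := cf_bd bd y

theorem dv_dv (y : List V →₀ (List W →₀ M)) : dv (dv y) = 0 := by
  ext l t
  rw [dv, cf_apply, cf_apply, bd_bd]; rfl

variable {D}

theorem mem_Bs_col {a b : ℕ} {y : List V →₀ (List W →₀ M)} (hy : y ∈ Bs D M a b) (t : List W) :
    cl' t y ∈ Sup M (fun l => (D {x | x ∈ l} {x | x ∈ t} ∧ t.length = b) ∧ l.length = a) := by
  intro l hl
  rw [cl'_apply] at hl
  obtain ⟨h1, h2, h3⟩ := hy l t hl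
  exact ⟨⟨h1, h3⟩, h2⟩

theorem mem_Bs_of_col {a b : ℕ} {y : List V →₀ (List W →₀ M)}
    (hy : ∀ t, cl' t y ∈ Sup M (fun l => (D {x | x ∈ l} {x | x ∈ t} ∧ t.length = b) ∧
      l.length = a)) : y ∈ Bs D M a b := by
  intro l t h
  have := hy t l (by rw [cl'_apply]; exact h)
  exact ⟨this.1.1, this.2, this.1.2⟩

theorem mem_Bs_row {a b : ℕ} {y : List V →₀ (List W →₀ M)} (hy : y ∈ Bs D M a b) (l : List V) :
    y l ∈ Sup M (fun t => D {x | x ∈ l} {x | x ∈ t} ∧ t.length = b) := fun t ht =>
  ⟨(hy l t ht).1, (hy l t ht).2.2⟩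

variable (hD : ∀ s s' t t', s ⊆ s' → t ⊆ t' → D s' t' → D s t)
include hD

theorem bd_mem_Bs {a b : ℕ} {y : List V →₀ (List W →₀ M)} (hy : y ∈ Bs D M (a + 1) b) :
    bd y ∈ Bs D M a b := by
  refine mem_Bs_of_col fun t => ?_
  rw [show cl' t (bd y) = bd (cl' t y) from cf_bd _ y]
  refine bd_mem_Sup (fun l hl l' h1 h2 => ?_) (mem_Bs_col hy t)
  refine ⟨⟨hD _ _ _ _ (fun x hx => h1 x hx) subset_rfl hl.1.1, hl.1.2⟩, ?_⟩
  have := hl.2
  omega

theorem dv_mem_Bs {a b : ℕ} {y : List V →₀ (List W →₀ M)} (hy : y ∈ Bs D M a (b + 1)) :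
    dv y ∈ Bs D M a b := by
  intro l t h
  rw [dv, cf_apply] at h
  by_cases h0 : y l = 0
  · rw [h0, map_zero] at h; exact absurd rfl h
  obtain ⟨t0, ht0⟩ := Finsupp.ne_iff.mp h0
  have hla := (hy l t0 ht0).2.1
  have h1 : bd (y l) ∈ Sup M (fun t => D {x | x ∈ l} {x | x ∈ t} ∧ t.length = b) := by
    refine bd_mem_Sup (fun t ht t' h1 h2 => ?_) (mem_Bs_row hy l)
    refine ⟨hD _ _ _ _ subset_rfl (fun x hx => h1 x hx) ht.1, ?_⟩
    have := ht.2
    omega
  exact ⟨(h1 t h).1, hla, (h1 t h).2⟩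

omit hD in
theorem bd_eq_zero_of_Bs {b : ℕ} {y : List V →₀ (List W →₀ M)} (hy : y ∈ Bs D M 0 b) :
    bd y = 0 := by
  have h : y = single [] (y []) := by
    ext l t
    by_cases hl : l = []
    · rw [hl, Finsupp.single_eq_same]
    · rw [Finsupp.single_eq_of_ne hl]
      by_contra h
      exact hl (List.length_eq_zero_iff.mp (hy l t h).2.1)
  rw [h, bd_single, bd1_nil]

/-- lift along the rows -/
theorem row_lift {a b : ℕ}
    (hr : ∀ l : List V, l.length = a → D {x | x ∈ l} ∅ → Ex M (D {x | x ∈ l}) b)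
    {u : List V →₀ (List W →₀ M)} (hu : u ∈ Bs D M a b) (h0 : dv u = 0) :
    ∃ y ∈ Bs D M a (b + 1), dv y = u := by
  classical
  have key : ∀ l : List V, ∃ c : List W →₀ M, bd c = u l ∧
      (u l = 0 → c = 0) ∧ ∀ t, c t ≠ 0 → D {x | x ∈ l} {x | x ∈ t} ∧ l.length = a ∧
        t.length = b + 1 := by
    intro l
    by_cases hl : u l = 0
    · exact ⟨0, by rw [hl, map_zero], fun _ => rfl, fun t h => absurd rfl h⟩
    · obtain ⟨t0, ht0⟩ := Finsupp.ne_iff.mp hl
      obtain ⟨h1, h2, h3⟩ := hu l t0 ht0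
      have hz : u l ∈ Zc M (D {x | x ∈ l}) b := by
        refine ⟨fun t ht => mem_Bs_row hu l t ht, ?_⟩
        show bd (u l) = 0
        have := DFunLike.congr_fun h0 l
        rw [dv, cf_apply] at this
        exact this
      obtain ⟨c, hc, hcb⟩ := hr l h2 (hD _ _ _ _ subset_rfl (Set.empty_subset _) h1) hz
      exact ⟨c, hcb, fun h => absurd h hl, fun t ht => ⟨(hc t ht).1, h2, (hc t ht).2⟩⟩
  choose c hc1 hc2 hc3 using key
  have hy : ∀ l, (u.support.sum fun l => single l (c l)) l = c l := by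
    intro l
    rw [Finsupp.finset_sum_apply]
    by_cases hl : l ∈ u.support
    · rw [Finset.sum_eq_single_of_mem l hl fun l' _ h => Finsupp.single_eq_of_ne h.symm,
        Finsupp.single_eq_same]
    · rw [Finset.sum_eq_zero, hc2 l (by simpa using hl)]
      intro l' hl'
      refine Finsupp.single_eq_of_ne ?_
      rintro rfl
      exact hl hl'
  refine ⟨u.support.sum fun l => single l (c l), ?_, ?_⟩
  · intro l t h
    rw [hy] at h
    exact hc3 l t h
  · refine Finsupp.ext fun l => ?_
    rw [dv, cf_apply, hy, hc1]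

/-- lift along the columns -/
theorem col_lift {a b : ℕ}
    (hr : ∀ t : List W, t.length = b → D ∅ {x | x ∈ t} → Ex M (fun s => D s {x | x ∈ t}) a)
    {u : List V →₀ (List W →₀ M)} (hu : u ∈ Bs D M a b) (h0 : bd u = 0) :
    ∃ y ∈ Bs D M (a + 1) b, bd y = u := by
  classical
  have key : ∀ t : List W, ∃ c : List V →₀ M, bd c = cl' t u ∧
      ∀ l, c l ≠ 0 → D {x | x ∈ l} {x | x ∈ t} ∧ l.length = a + 1 ∧ t.length = b := by
    intro t
    by_cases hl : cl' t u = 0
    · exact ⟨0, by rw [hl, map_zero], fun t h => absurd rfl h⟩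
    · obtain ⟨l0, hl0⟩ := Finsupp.ne_iff.mp hl
      rw [cl'_apply] at hl0
      obtain ⟨h1, h2, h3⟩ := hu l0 t hl0
      have hz : cl' t u ∈ Zc M (fun s => D s {x | x ∈ t}) a := by
        refine ⟨fun l hl => ?_, ?_⟩
        · rw [cl'_apply] at hl
          exact ⟨(hu l t hl).1, (hu l t hl).2.1⟩
        · show bd (cl' t u) = 0
          rw [← show cl' t (bd u) = bd (cl' t u) from cf_bd _ u, h0, map_zero]
      obtain ⟨c, hc, hcb⟩ := hr t h3 (hD _ _ _ _ (Set.empty_subset _) subset_rfl h1) hz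
      exact ⟨c, hcb, fun l hl => ⟨(hc l hl).1, (hc l hl).2, h3⟩⟩
  choose c hc1 hc2 using key
  set T : Finset (List W) := u.support.biUnion fun l => (u l).support with hT
  have hsum : u = ∑ t ∈ T, cf (Finsupp.singleAddHom t) (cl' t u) := by
    refine Finsupp.ext fun l => Finsupp.ext fun t => ?_
    rw [Finsupp.finset_sum_apply, Finsupp.finset_sum_apply]
    have e : ∀ x ∈ T, ((cf (Finsupp.singleAddHom x) (cl' x u)) l) t =
        if x = t then (u l) t else 0 := by
      intro x _
      rw [cf_apply, cl'_apply, Finsupp.singleAddHom_apply, Finsupp.single_apply]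
      split_ifs with h
      · rw [h]
      · rfl
    rw [Finset.sum_congr rfl e, Finset.sum_ite_eq']
    split_ifs with h
    · rfl
    · by_contra h2
      refine h (Finset.mem_biUnion.mpr ⟨l, ?_, by simpa using h2⟩)
      rw [Finsupp.mem_support_iff]
      intro h3
      rw [h3] at h2
      exact h2 rfl
  refine ⟨∑ t ∈ T, cf (Finsupp.singleAddHom t) (c t), ?_, ?_⟩
  · refine AddSubgroup.sum_mem _ fun t _ => ?_
    intro l t' h
    rw [cf_apply, Finsupp.singleAddHom_apply, Finsupp.single_apply] at h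
    split_ifs at h with h1
    · subst h1
      exact hc2 t l h
    · exact absurd rfl h
  · rw [map_sum]
    conv_rhs => rw [hsum]
    refine Finset.sum_congr rfl fun t _ => ?_
    rw [← cf_bd, hc1]

/-- the zigzag -/
theorem zigzag (p : ℕ)
    (hr : ∀ l : List V, l.length ≤ p → D {x | x ∈ l} ∅ → Ex M (D {x | x ∈ l}) (p - l.length))
    (hc : ∀ t : List W, 2 ≤ t.length → t.length ≤ p + 1 → D ∅ {x | x ∈ t} →
      Ex M (fun s => D s {x | x ∈ t}) (p + 1 - t.length)) :
    ∀ (a b : ℕ), a + b = p → ∀ u ∈ Bs D M a b, dv u = 0 → bd u = 0 →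
      ∃ y ∈ Bs D M a (b + 1), dv y = u ∧ bd y = 0 := by
  intro a
  induction a with
  | zero =>
    intro b hab u hu h0 _
    obtain ⟨y, hy, hyu⟩ := row_lift hD (b := b) (fun l hl hl' => by
      have := hr l (by omega) hl'
      rwa [show p - l.length = b by omega] at this) hu h0
    exact ⟨y, hy, hyu, bd_eq_zero_of_Bs hy⟩
  | succ a ih =>
    intro b hab u hu h0 h1
    obtain ⟨y0, hy0, hyu⟩ := row_lift hD (b := b) (fun l hl hl' => by
      have := hr l (by omega) hl'
      rwa [show p - l.length = b by omega] at this) hu h0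
    obtain ⟨y1, hy1, hy1v, hy1b⟩ := ih (b + 1) (by omega) (bd y0) (bd_mem_Bs hD hy0)
      (by rw [dv_bd, hyu, h1]) (bd_bd y0)
    obtain ⟨w, hw, hwy⟩ := col_lift hD (b := b + 2) (fun t ht ht' => by
      have := hc t (by omega) (by omega) ht'
      rwa [show p + 1 - t.length = a by omega] at this) hy1 hy1b
    refine ⟨y0 - dv w, AddSubgroup.sub_mem _ hy0 (dv_mem_Bs hD hw), ?_, ?_⟩
    · rw [map_sub, dv_dv, sub_zero, hyu]
    · rw [map_sub, ← dv_bd, hwy, hy1v, sub_self]

end bic

theorem bic : BicS := by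
  classical
  intro V W M _ D p hD hr hc z hz
  obtain ⟨hz1, hz2⟩ := hz
  have hz2' : bd z = 0 := hz2
  have hu : cf (Finsupp.singleAddHom ([] : List W)) z ∈ Bs D M p 0 := by
    intro l t h
    rw [cf_apply, Finsupp.singleAddHom_apply, Finsupp.single_apply] at h
    split_ifs at h with h1
    · obtain ⟨h2, h3⟩ := hz1 l h
      subst h1
      refine ⟨?_, h3, rfl⟩
      have h4 : D {x | x ∈ l} ∅ := h2
      convert h4
      ext x; simp
    · exact absurd rfl h
  have hdv : dv (cf (Finsupp.singleAddHom ([] : List W)) z) = 0 := by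
    refine Finsupp.ext fun l => ?_
    rw [dv, cf_apply, cf_apply, Finsupp.singleAddHom_apply, bd_single, bd1_nil]; rfl
  have hbd : bd (cf (Finsupp.singleAddHom ([] : List W)) z) = 0 := by
    rw [← cf_bd, hz2', map_zero]
  obtain ⟨y, hy, hyv, hyb⟩ := zigzag hD p hr hc p 0 rfl _ hu hdv hbd
  -- z is the sum of the columns
  set T : Finset (List W) := y.support.biUnion fun l => (y l).support with hT
  have hT1 : ∀ t ∈ T, ∃ w, t = [w] := by
    intro t ht
    obtain ⟨l, _, hl⟩ := Finset.mem_biUnion.mp ht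
    exact List.length_eq_one_iff.mp (hy l t (by simpa using hl)).2.2
  have hsum : z = ∑ t ∈ T, cl' t y := by
    refine Finsupp.ext fun l => ?_
    rw [Finsupp.finset_sum_apply]
    have h1 := DFunLike.congr_fun hyv l
    rw [dv, cf_apply, cf_apply, Finsupp.singleAddHom_apply] at h1
    have h2 : y l = ∑ t ∈ T, single t ((y l) t) := by
      refine Finsupp.ext fun t => ?_
      rw [Finsupp.finset_sum_apply]
      have e : ∀ x ∈ T, (single x ((y l) x)) t = if x = t then (y l) t else 0 := by
        intro x _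
        rw [Finsupp.single_apply]
        split_ifs with h
        · rw [h]
        · rfl
      rw [Finset.sum_congr rfl e, Finset.sum_ite_eq']
      split_ifs with h
      · rfl
      · by_contra h2
        refine h (Finset.mem_biUnion.mpr ⟨l, ?_, by simpa using h2⟩)
        rw [Finsupp.mem_support_iff]
        intro h3
        rw [h3] at h2
        exact h2 rfl
    rw [h2, map_sum] at h1
    have h3 : ∀ t ∈ T, bd (single t ((y l) t)) = single ([] : List W) ((y l) t) := by
      intro t ht
      obtain ⟨w, rfl⟩ := hT1 t ht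
      rw [bd_single, bd1_cons, bd1_nil, map_zero, sub_zero]
    rw [Finset.sum_congr rfl h3] at h1
    have h4 := DFunLike.congr_fun h1 ([] : List W)
    rw [Finsupp.finset_sum_apply] at h4
    simp only [Finsupp.single_eq_same] at h4
    rw [← h4]
    exact Finset.sum_congr rfl fun t _ => (cl'_apply t y l).symm
  rw [hsum]
  refine AddSubgroup.sum_mem _ fun t ht => ?_
  obtain ⟨w, rfl⟩ := hT1 t ht
  obtain ⟨l0, _, hl0⟩ := Finset.mem_biUnion.mp ht
  have hset : {x | x ∈ [w]} = ({w} : Set W) := by ext x; simp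
  have hw : D ∅ {w} := by
    have h5 := (hy l0 [w] (by simpa using hl0)).1
    rw [hset] at h5
    exact hD _ _ _ _ (Set.empty_subset _) subset_rfl h5
  refine AddSubgroup.mem_iSup_of_mem (⟨w, hw⟩ : {w : W // D ∅ {w}}) ?_
  refine ⟨fun l hl => ?_, ?_⟩
  · rw [cl'_apply] at hl
    obtain ⟨h6, h7, -⟩ := hy l [w] hl
    rw [hset] at h6
    exact ⟨h6, h7⟩
  · show bd (cl' [w] y) = 0
    rw [← show cl' [w] (bd y) = bd (cl' [w] y) from cf_bd _ y, hyb, map_zero]

end Pool.Agent.TWS
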