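import Pool.Agent.Helper20_TWS.Bic

/-! TWS NNA: the complex of handles at one gap, free for `τ`. -/

set_option autoImplicit false

namespace Pool.Agent.TWS

open Pool.Agent.TOR.H58

section lin

variable {V E : Type} [AddCommGroup E] [Module ℚ E] {g : ℕ} (S : ASys V E g)

theorem ind_iff (N : Submodule ℚ E) (s : Set V) : S.Ind N s ↔
    ∀ c ∈ Finsupp.supported ℚ ℚ s, Finsupp.linearCombination ℚ S.cl c ∈ N → c = 0 := by
  unfold ASys.Ind
  rw [linearIndepOn_iff]
  have h : ∀ c : V →₀ ℚ, Finsupp.linearCombination ℚ (fun v => N.mkQ (S.cl v)) c =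
      N.mkQ (Finsupp.linearCombination ℚ S.cl c) := by
    intro c
    rw [Finsupp.linearCombination_apply, Finsupp.linearCombination_apply, Finsupp.sum,
      Finsupp.sum, map_sum]
    exact Finset.sum_congr rfl fun v _ => (map_smul _ _ _).symm
  refine forall₂_congr fun c _ => ?_
  rw [h, Submodule.mkQ_apply, Submodule.Quotient.mk_eq_zero]

theorem ind_mono {N : Submodule ℚ E} {s t : Set V} (h : s ⊆ t) (ht : S.Ind N t) : S.Ind N s :=
  LinearIndepOn.mono ht h

theorem ind_quot (A : Submodule ℚ E) (ρ ρ' : Set V) (hρ : S.Ind A ρ) :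
    S.Ind (A ⊔ Submodule.span ℚ (S.cl '' ρ)) ρ' ↔ S.Ind A (ρ ∪ ρ') ∧ Disjoint ρ' ρ := by
  classical
  rw [ind_iff, ind_iff]
  rw [ind_iff] at hρ
  constructor
  · intro h
    refine ⟨fun c hc hA => ?_, ?_⟩
    · set c1 := c.filter (fun v => v ∈ ρ) with hc1
      set c2 := c.filter (fun v => ¬ v ∈ ρ) with hc2
      have hs : c1 + c2 = c := Finsupp.filter_add_filter_not c _
      have h1 : c1 ∈ Finsupp.supported ℚ ℚ ρ := by
        rw [Finsupp.mem_supported]
        intro v hv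
        have := Finsupp.support_filter (fun v => v ∈ ρ) c
        rw [hc1, this] at hv
        simpa using (Finset.mem_filter.mp hv).2
      have h2 : c2 ∈ Finsupp.supported ℚ ℚ ρ' := by
        rw [Finsupp.mem_supported]
        intro v hv
        have := Finsupp.support_filter (fun v => ¬ v ∈ ρ) c
        rw [hc2, this] at hv
        obtain ⟨h3, h4⟩ := Finset.mem_filter.mp hv
        rw [Finsupp.mem_supported] at hc
        exact (hc h3).resolve_left h4
      have h3 : c2 = 0 := by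
        refine h c2 h2 ?_
        rw [show c2 = c - c1 by rw [← hs]; abel, map_sub]
        refine Submodule.sub_mem _ (Submodule.mem_sup_left hA) (Submodule.mem_sup_right ?_)
        exact (Finsupp.mem_span_image_iff_linearCombination ℚ).mpr ⟨c1, h1, rfl⟩
      rw [h3, add_zero] at hs
      rw [← hs] at hA ⊢
      exact hρ c1 h1 hA
    · rw [Set.disjoint_left]
      intro v h1 h2
      have := h (Finsupp.single v 1) (Finsupp.single_mem_supported ℚ 1 h1) (by
        rw [Finsupp.linearCombination_single, one_smul]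
        exact Submodule.mem_sup_right (Submodule.subset_span ⟨v, h2, rfl⟩))
      exact one_ne_zero (Finsupp.single_eq_zero.mp this)
  · rintro ⟨h1, h2⟩ c hc hA
    obtain ⟨a, ha, b, hb, hab⟩ := Submodule.mem_sup.mp hA
    obtain ⟨d, hd, hdb⟩ := (Finsupp.mem_span_image_iff_linearCombination ℚ).mp hb
    have h3 : c - d = 0 := by
      refine h1 _ (Submodule.sub_mem _ ?_ ?_) ?_
      · exact Finsupp.supported_mono Set.subset_union_right hc
      · exact Finsupp.supported_mono Set.subset_union_left hd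
      · rw [map_sub, hdb, ← hab, add_sub_cancel_right]
        exact ha
    have h4 : c = d := sub_eq_zero.mp h3
    rw [← h4] at hd
    ext v
    by_contra hv
    have hv' : v ∈ c.support := by simpa using hv
    exact Set.disjoint_left.mp h2 (hc hv') (hd hv')

/-- the vectors orthogonal to `τ` -/
def orth (τ : Set (ℕ × V)) : Submodule ℚ E where
  carrier := {e | ∀ p ∈ τ, S.om (S.cl p.2) e = 0}
  zero_mem' := fun p _ => map_zero _
  add_mem' := fun ha hb p hp => by rw [map_add, ha p hp, hb p hp, add_zero]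
  smul_mem' := fun c x hx p hp => by rw [map_smul, hx p hp, smul_zero]

theorem finrank_orth (τ : Set (ℕ × V)) (hτ : τ.Finite) :
    2 * g ≤ Module.finrank ℚ (orth S τ) + τ.ncard := by
  have := S.fd
  have := hτ.fintype
  let F : E →ₗ[ℚ] (τ → ℚ) := LinearMap.pi fun p => S.om (S.cl p.1.2)
  have hk : LinearMap.ker F = orth S τ := by
    ext e
    rw [LinearMap.mem_ker]
    constructor
    · intro h p hp
      exact congrFun h ⟨p, hp⟩
    · intro h
      funext p
      exact h p.1 p.2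
  have h1 := LinearMap.finrank_range_add_finrank_ker F
  rw [hk, S.dim] at h1
  have h2 : Module.finrank ℚ (LinearMap.range F) ≤ Module.finrank ℚ (τ → ℚ) :=
    Submodule.finrank_le _
  rw [Module.finrank_fintype_fun_eq_card, ← Nat.card_eq_fintype_card, Nat.card_coe_set_eq] at h2
  omega

theorem finrank_spn (τ : Set (ℕ × V)) (hτ : τ.Finite) :
    Module.finrank ℚ (S.spn τ) ≤ τ.ncard := by
  classical
  have := (hτ.image (fun p : ℕ × V => S.cl p.2)).fintype
  refine (finrank_span_le_card _).trans ?_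
  rw [← Set.ncard_eq_toFinset_card']
  exact Set.ncard_image_le hτ

theorem finrank_cl (ρ : Set V) (hρ : ρ.Finite) :
    Module.finrank ℚ (Submodule.span ℚ (S.cl '' ρ)) ≤ ρ.ncard := by
  classical
  have := (hρ.image S.cl).fintype
  refine (finrank_span_le_card _).trans ?_
  rw [← Set.ncard_eq_toFinset_card']
  exact Set.ncard_image_le hρ

include S in
theorem finrank_map_mkQ (L N : Submodule ℚ E) :
    Module.finrank ℚ L ≤ Module.finrank ℚ (L.map N.mkQ) + Module.finrank ℚ N := by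
  have := S.fd
  have h1 := LinearMap.finrank_range_add_finrank_ker (N.mkQ.domRestrict L)
  have h2 : LinearMap.range (N.mkQ.domRestrict L) = L.map N.mkQ := by
    ext x
    simp only [LinearMap.mem_range, Submodule.mem_map]
    constructor
    · rintro ⟨y, rfl⟩; exact ⟨y.1, y.2, rfl⟩
    · rintro ⟨y, hy, rfl⟩; exact ⟨⟨y, hy⟩, rfl⟩
  have h3 : Module.finrank ℚ (LinearMap.ker (N.mkQ.domRestrict L)) ≤ Module.finrank ℚ N := by
    refine LinearMap.finrank_le_finrank_of_injective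
      (f := (L.subtype.comp (LinearMap.ker (N.mkQ.domRestrict L)).subtype).codRestrict N ?_) ?_
    · rintro ⟨x, hx⟩
      have : N.mkQ x.1 = 0 := hx
      rwa [Submodule.mkQ_apply, Submodule.Quotient.mk_eq_zero] at this
    · intro x y h
      have := congrArg Subtype.val h
      exact Subtype.ext (Subtype.ext this)
  rw [h2] at h1
  omega

theorem ncard_le_of_ind (A : Submodule ℚ E) (ρ : Set V) (hρ : S.Ind A ρ) :
    ρ.Finite ∧ ρ.ncard = Module.finrank ℚ (Submodule.span ℚ (S.cl '' ρ)) ∧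
      ρ.ncard ≤ 2 * g := by
  have := S.fd
  have h0 : LinearIndepOn ℚ S.cl ρ := by
    rw [linearIndepOn_iff]
    intro c hc h
    rw [ind_iff] at hρ
    exact hρ c hc (by rw [h]; exact Submodule.zero_mem _)
  have hfin : ρ.Finite := by
    have := LinearIndependent.finite (R := ℚ) (f := fun v : ρ => S.cl v) h0
    exact Set.toFinite ρ
  have := hfin.fintype
  have h1 := finrank_span_eq_card (R := ℚ) (b := fun v : ρ => S.cl v) h0
  have h2 : Set.range (fun v : ρ => S.cl v) = S.cl '' ρ := by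
    ext x; simp
  rw [h2, ← Nat.card_eq_fintype_card, Nat.card_coe_set_eq] at h1
  refine ⟨hfin, h1.symm, ?_⟩
  rw [← h1, ← S.dim]
  exact Submodule.finrank_le _

theorem om_skew (a b : E) : S.om a b = - S.om b a := by
  have h := S.alt (a + b)
  rw [map_add, map_add, LinearMap.add_apply, LinearMap.add_apply, S.alt, S.alt, zero_add,
    add_zero] at h
  linarith

theorem ncard_iso (A : Submodule ℚ E) (ρ : Set V) (hρ : S.Ind A ρ)
    (h0 : ∀ x ∈ ρ, ∀ y ∈ ρ, S.om (S.cl x) (S.cl y) = 0) : ρ.ncard ≤ g := by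
  have := S.fd
  obtain ⟨hf, hr, _⟩ := ncard_le_of_ind S A ρ hρ
  set W := Submodule.span ℚ (S.cl '' ρ) with hW
  have hnd : LinearMap.Nondegenerate S.om := by
    refine ⟨S.ndg, fun e he => S.ndg e fun f => ?_⟩
    rw [om_skew, he, neg_zero]
  have h1 := LinearMap.BilinForm.finrank_orthogonal (B := S.om) hnd W
  have h2 : W ≤ LinearMap.BilinForm.orthogonal S.om W := by
    intro x hx
    rw [LinearMap.BilinForm.mem_orthogonal_iff]
    intro y hy
    show S.om y x = 0
    have h3 : W ≤ LinearMap.ker (S.om.flip x) := by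
      rw [hW, Submodule.span_le]
      rintro _ ⟨v, hv, rfl⟩
      show S.om (S.cl v) x = 0
      have h4 : W ≤ LinearMap.ker (S.om (S.cl v)) := by
        rw [hW, Submodule.span_le]
        rintro _ ⟨w, hw, rfl⟩
        exact h0 v hv w hw
      exact h4 hx
    exact h3 hy
  have h3 := Submodule.finrank_mono h2
  rw [h1, S.dim, ← hr] at h3
  omega

end lin

section nna

variable {V E : Type} [AddCommGroup E] [Module ℚ E] {g : ℕ} (S : ASys V E g)

/-- handles at the gap `i`, compatible with `τ` and `ρ` (arcs at `i`), jointly independent -/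
def NNr (τ : Set (ℕ × V)) (i : ℕ) (ρ : Set V) (κ : Set (V × V)) : Prop :=
  (∀ h ∈ κ, S.IsH h) ∧ S.Sys (τ ∪ gp i (ρ ∪ uh κ)) ∧ S.Ind (S.spn τ) (ρ ∪ uh κ)

/-- the bicomplex -/
def DD (τ : Set (ℕ × V)) (i : ℕ) (ρ : Set V) (κ : Set (V × V)) (t : Set V) : Prop :=
  (∀ h ∈ κ, S.IsH h) ∧ S.Sys (τ ∪ gp i (ρ ∪ t ∪ uh κ)) ∧ S.Ind (S.spn τ) (ρ ∪ t ∪ uh κ) ∧
    Disjoint t ρ

theorem uh_mono {s t : Set (V × V)} (h : s ⊆ t) : uh s ⊆ uh t := by
  rintro v ⟨a, ha, hv⟩
  exact ⟨a, h ha, hv⟩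

theorem uh_empty : uh (∅ : Set (V × V)) = ∅ := by
  ext v
  simp [uh]

theorem uh_insert (h : V × V) (s : Set (V × V)) : uh (insert h s) = {h.1, h.2} ∪ uh s := by
  ext v
  simp [uh]

theorem gp_mono {i : ℕ} {s t : Set V} (h : s ⊆ t) : gp i s ⊆ gp i t := Set.image_mono h

theorem gp_union (i : ℕ) (s t : Set V) : gp i (s ∪ t) = gp i s ∪ gp i t := Set.image_union ..

theorem sys_mono {κ κ' : Set (ℕ × V)} (h : κ ⊆ κ') (hs : S.Sys κ') : S.Sys κ :=
  fun p hp q hq => hs p (h hp) q (h hq)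

theorem dn_NNr (τ : Set (ℕ × V)) (i : ℕ) (ρ : Set V) : Dn (NNr S τ i ρ) := by
  rintro s t hst ⟨h1, h2, h3⟩
  have e : ρ ∪ uh s ⊆ ρ ∪ uh t := Set.union_subset_union_right _ (uh_mono hst)
  exact ⟨fun h hh => h1 h (hst hh), sys_mono S (Set.union_subset_union_right _ (gp_mono e)) h2,
    ind_mono S e h3⟩

theorem NNr_le {τ : Set (ℕ × V)} {i : ℕ} {ρ ρ' : Set V} (hρ : ρ ⊆ ρ') (κ : Set (V × V))
    (h : NNr S τ i ρ' κ) : NNr S τ i ρ κ := by
  obtain ⟨h1, h2, h3⟩ := h
  have e : ρ ∪ uh κ ⊆ ρ' ∪ uh κ := Set.union_subset_union_left _ hρ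
  exact ⟨h1, sys_mono S (Set.union_subset_union_right _ (gp_mono e)) h2, ind_mono S e h3⟩

theorem dd_mono (τ : Set (ℕ × V)) (i : ℕ) (ρ : Set V) : ∀ (s s' : Set (V × V)) (t t' : Set V),
    s ⊆ s' → t ⊆ t' → DD S τ i ρ s' t' → DD S τ i ρ s t := by
  rintro s s' t t' hs ht ⟨h1, h2, h3, h4⟩
  have e : ρ ∪ t ∪ uh s ⊆ ρ ∪ t' ∪ uh s' :=
    Set.union_subset_union (Set.union_subset_union_right _ ht) (uh_mono hs)
  exact ⟨fun h hh => h1 h (hs hh), sys_mono S (Set.union_subset_union_right _ (gp_mono e)) h2,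
    ind_mono S e h3, h4.mono_left ht⟩

theorem Zc_mono {M : Type} [AddCommGroup M] {W : Type} {K K' : Set W → Prop} {p : ℕ}
    (h : ∀ l : List W, l.length = p → K {a | a ∈ l} → K' {a | a ∈ l}) : Zc M K p ≤ Zc M K' p := by
  rintro z ⟨h1, h2⟩
  exact ⟨fun l hl => ⟨h l (h1 l hl).2 (h1 l hl).1, (h1 l hl).2⟩, h2⟩

theorem Bc_mono {M : Type} [AddCommGroup M] {W : Type} {K K' : Set W → Prop} {p : ℕ}
    (h : ∀ l : List W, l.length = p + 1 → K {a | a ∈ l} → K' {a | a ∈ l}) :
    Bc M K p ≤ Bc M K' p := by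
  rintro _ ⟨z, h1, rfl⟩
  exact ⟨z, fun l hl => ⟨h l (h1 l hl).2 (h1 l hl).1, (h1 l hl).2⟩, rfl⟩

theorem Ex_congr {M : Type} [AddCommGroup M] {W : Type} {K K' : Set W → Prop} {p : ℕ}
    (h : ∀ s, K s ↔ K' s) : Ex M K p ↔ Ex M K' p := by
  have : K = K' := funext fun s => propext (h s)
  rw [this]

theorem nnr_ex (hBas : BasS) (hBic : BicS) (hM2 : M2S) (M : Type) [AddCommGroup M]
    (τ : Set (ℕ × V)) (i m : ℕ) (hτ : τ.Finite) (hI : S.IndG τ)
    (hi : ∀ p ∈ τ, p.1 ≠ i) (hm : 2 * τ.ncard + m + 1 ≤ g) :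
    ∀ (d : ℕ) (ρ : Set V), S.Sys (τ ∪ gp i ρ) → S.Ind (S.spn τ) ρ → 2 * g - ρ.ncard ≤ d →
      ∀ p ≤ m, Ex M (NNr S τ i ρ) p := by
  classical
  have hfd := S.fd
  intro d
  induction d using Nat.strong_induction_on with
  | _ d ih =>
  intro ρ hS hρ hd p hp
  obtain ⟨hf, hr, hc⟩ := ncard_le_of_ind S _ ρ hρ
  by_cases hiso : ∀ x ∈ ρ, ∀ y ∈ ρ, S.om (S.cl x) (S.cl y) = 0
  swap
  · -- a handle in ρ: cone point
    push Not at hiso
    obtain ⟨x, hx, y, hy, hxy⟩ := hiso
    have hC : S.C (i, x) (i, y) := hS _ (Or.inr ⟨x, hx, rfl⟩) _ (Or.inr ⟨y, hy, rfl⟩)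
    obtain ⟨h, hh1, hh2⟩ : ∃ h : V × V, S.IsH h ∧ ({h.1, h.2} : Set V) ⊆ ρ := by
      rcases S.unit i x y hC with h | h | h
      · exact absurd h hxy
      · exact ⟨(x, y), ⟨S.same _ _ _ _ hC, h⟩, by
          rintro v (rfl | rfl)
          · exact hx
          · exact hy⟩
      · refine ⟨(y, x), ⟨S.same _ _ _ _ (S.symm _ _ hC), ?_⟩, by
          rintro v (rfl | rfl)
          · exact hy
          · exact hx⟩
        rw [om_skew, h, neg_neg]
    refine (hBas _ M _).2 (dn_NNr S τ i ρ) h (fun s hs => ?_) p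
    obtain ⟨h1, h2, h3⟩ := hs
    have e : ρ ∪ uh (insert h s) = ρ ∪ uh s := by
      rw [uh_insert, ← Set.union_assoc, Set.union_eq_left.mpr hh2]
    refine ⟨?_, by rw [e]; exact h2, by rw [e]; exact h3⟩
    rintro k (rfl | hk)
    · exact hh1
    · exact h1 k hk
  -- isotropic
  have hg := ncard_iso S _ ρ hρ hiso
  -- columns over nonempty t
  have hcol : ∀ t : List V, t ≠ [] → DD S τ i ρ ∅ {a | a ∈ t} → ∀ q ≤ m,
      Ex M (fun s => DD S τ i ρ s {a | a ∈ t}) q := by
    intro t ht hD q hq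
    obtain ⟨_, h2, h3, h4⟩ := hD
    rw [uh_empty, Set.union_empty] at h2 h3
    have e : ∀ s, NNr S τ i (ρ ∪ {a | a ∈ t}) s ↔ DD S τ i ρ s {a | a ∈ t} := fun s =>
      ⟨fun h => ⟨h.1, h.2.1, h.2.2, h4⟩, fun h => ⟨h.1, h.2.1, h.2.2.1⟩⟩
    rw [← Ex_congr e]
    obtain ⟨hf', _, hc'⟩ := ncard_le_of_ind S _ _ h3
    have hlt : ρ.ncard < (ρ ∪ {a | a ∈ t}).ncard := by
      refine Set.ncard_lt_ncard ?_ hf'
      refine ⟨Set.subset_union_left, fun h => ?_⟩
      obtain ⟨a, ha⟩ := List.exists_mem_of_ne_nil t ht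
      exact Set.disjoint_left.mp h4 ha (h (Or.inr ha))
    exact ih (2 * g - (ρ ∪ {a | a ∈ t}).ncard) (by omega) _ h2 h3 le_rfl q hq
  have hz := hBic (V × V) V M (DD S τ i ρ) p (dd_mono S τ i ρ) ?_ ?_
  · have e : ∀ s, NNr S τ i ρ s ↔ DD S τ i ρ s ∅ := fun s => by
      unfold NNr DD
      rw [Set.union_empty]
      exact ⟨fun h => ⟨h.1, h.2.1, h.2.2, Set.empty_disjoint _⟩, fun h => ⟨h.1, h.2.1, h.2.2.1⟩⟩
    rw [Ex_congr e]
    refine hz.trans (iSup_le fun w => ?_)
    have h1 := hcol [w.1] (by simp) (by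
      have := w.2
      convert this
      ext x; simp) p hp
    have e2 : ({a | a ∈ [w.1]} : Set V) = {w.1} := by ext x; simp
    rw [e2] at h1
    refine le_trans h1 (Bc_mono fun l _ h => ?_)
    exact dd_mono S τ i ρ _ _ _ _ subset_rfl (Set.empty_subset _) h
  · -- rows
    intro l hl hDl
    by_cases hl0 : l = []
    · subst hl0
      have e0 : ({a | a ∈ ([] : List (V × V))} : Set (V × V)) = ∅ := by ext x; simp
      rw [e0, List.length_nil, Nat.sub_zero]
      have e : ∀ s, S.II (τ ∪ gp i ρ) i (S.spn τ ⊔ Submodule.span ℚ (S.cl '' ρ)) s ↔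
          DD S τ i ρ ∅ s := by
        intro s
        unfold ASys.II DD
        rw [ind_quot S _ _ _ hρ, uh_empty, Set.union_empty, gp_union, Set.union_assoc]
        exact ⟨fun h => ⟨fun x hx => absurd hx (Set.notMem_empty x), h.1, h.2.1, h.2.2⟩,
          fun h => ⟨h.2.1, h.2.2.1, h.2.2.2⟩⟩
      rw [← Ex_congr e]
      refine hM2 V E M g S (τ ∪ gp i ρ) i (orth S τ) (hτ.union (hf.image _)) hS ?_ _ p ?_
      · intro ρ' hρ' hS' N' hN'
        obtain ⟨e, he, he'⟩ := Set.not_subset.mp hN'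
        rw [Set.union_assoc, ← gp_union] at hS' ⊢
        refine S.exist τ (gp i (ρ ∪ ρ')) i hτ ((hf.union hρ').image _) hS' hi ?_ hI N'
          ⟨e, he, he'⟩
        rintro _ ⟨v, _, rfl⟩
        rfl
      · have h1 := finrank_orth S τ hτ
        have h2 := finrank_map_mkQ S (orth S τ) (S.spn τ ⊔ Submodule.span ℚ (S.cl '' ρ))
        have h3 := Submodule.finrank_add_le_finrank_add_finrank (S.spn τ)
          (Submodule.span ℚ (S.cl '' ρ))
        have h4 := finrank_spn S τ hτ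
        omega
    · -- cone over an arc of a handle of l, not in ρ
      obtain ⟨h, hh⟩ := List.exists_mem_of_ne_nil l hl0
      obtain ⟨e, he, heρ⟩ : ∃ e ∈ uh {a | a ∈ l}, e ∉ ρ := by
        by_contra hcon
        push Not at hcon
        have h1 := hiso h.1 (hcon _ ⟨h, hh, Or.inl rfl⟩) h.2 (hcon _ ⟨h, hh, Or.inr rfl⟩)
        have h2 := (hDl.1 h hh).2
        rw [h1] at h2
        exact zero_ne_one h2
      refine (hBas _ M _).2 (fun s t hst ht => dd_mono S τ i ρ _ _ _ _ subset_rfl hst ht) e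
        (fun s hs => ?_) _
      obtain ⟨h1, h2, h3, h4⟩ := hs
      have e1 : ρ ∪ insert e s ∪ uh {a | a ∈ l} = ρ ∪ s ∪ uh {a | a ∈ l} := by
        ext x
        simp only [Set.mem_union, Set.mem_insert_iff]
        constructor
        · rintro ((h | rfl | h) | h)
          · exact Or.inl (Or.inl h)
          · exact Or.inr he
          · exact Or.inl (Or.inr h)
          · exact Or.inr h
        · rintro ((h | h) | h)
          · exact Or.inl (Or.inl h)
          · exact Or.inl (Or.inr (Or.inr h))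
          · exact Or.inr h
      refine ⟨h1, by rw [e1]; exact h2, by rw [e1]; exact h3, ?_⟩
      rw [Set.disjoint_left] at h4 ⊢
      rintro x (rfl | hx)
      · exact heρ
      · exact h4 hx
  · intro t ht ht' hD
    exact hcol t (by rintro rfl; simp at ht) hD _ (by omega)

theorem nna (hBas : BasS) (hBic : BicS) (hM2 : M2S) : NnaS := by
  intro V E M _ _ _ g S τ i m hτ hS hI hi hm p hp
  have h := nnr_ex S hBas hBic hM2 M τ i m hτ hI hi hm (2 * g - (∅ : Set V).ncard) ∅
    (by rw [show gp i (∅ : Set V) = ∅ from Set.image_empty _, Set.union_empty]; exact hS)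
    (linearIndepOn_empty ..) le_rfl p hp
  have e : ∀ s, NNr S τ i ∅ s ↔ S.NN τ i s := fun s => by
    unfold NNr ASys.NN
    rw [Set.empty_union]
  exact (Ex_congr e).mp h

end nna

end Pool.Agent.TWS
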